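import Pool.Agent.Helper73.RG.Tent
import Pool.Agent.Helper73.MD.Arc

/-!
Quantitative Weyl criterion: if `k` real numbers are not nearly equidistributed modulo one with
respect to the partition into `B` equal intervals, then one of finitely many exponential sums is
at least a constant times `k`.
-/

set_option autoImplicit false

open Finset Filter Real

namespace Pool.Agent.Helper67.NM

open Pool.Agent.Helper73.RG Pool.Agent.Helper73.MD

/-- the exponential sum -/
noncomputable def es (k : ℕ) (y : ℕ → ℝ) (h : ℕ) : ℂ := ∑ i ∈ range k, ee (h * y i)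

theorem norm_es_le (k : ℕ) (y : ℕ → ℝ) (h : ℕ) : ‖es k y h‖ ≤ k := by
  unfold es
  refine (norm_sum_le _ _).trans ?_
  simp [norm_ee]

theorem cos_sum (k : ℕ) (y : ℕ → ℝ) (h : ℕ) (u : ℝ) :
    |∑ i ∈ range k, cos (2 * π * h * (y i - u))| ≤ ‖es k y h‖ := by
  have h1 : ∑ i ∈ range k, cos (2 * π * h * (y i - u)) = (ee (-(h * u)) * es k y h).re := by
    unfold es
    rw [mul_sum, Complex.re_sum]
    refine Finset.sum_congr rfl fun i _ => ?_
    rw [← ee_add]
    unfold ee
    rw [Complex.exp_ofReal_mul_I_re]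
    congr 1
    ring
  rw [h1]
  refine (Complex.abs_re_le_norm _).trans ?_
  rw [norm_mul, norm_ee, one_mul]

/-- averages of a tent -/
theorem tent_avg {b : ℝ} (hb0 : 0 < b) (hb : b ≤ 1 / 2) {η : ℝ} (hη : 0 < η) :
    ∃ (H : ℕ) (e : ℝ), 0 < e ∧ ∀ (k : ℕ) (y : ℕ → ℝ) (u : ℝ),
      (∀ h, 1 ≤ h → h ≤ H → ‖es k y h‖ ≤ e * k) →
      |∑ i ∈ range k, (tent b (y i - u) - 1)| ≤ η * k := by
  have hw := hasSum_wt hb0 hb
  have ht : ∀ᶠ n in atTop, 1 / b - η / 2 < ∑ h ∈ range n, wt b h :=
    hw.tendsto_sum_nat.eventually_const_lt (by linarith)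
  obtain ⟨H, hH⟩ := ht.exists
  refine ⟨H, η * b / 2, by positivity, fun k y u hes => ?_⟩
  have hk : (0 : ℝ) ≤ k := by positivity
  -- the Fourier series of the sum
  have h1 : HasSum (fun h : ℕ => ∑ i ∈ range k, wt b h * cos (2 * π * h * (y i - u)))
      (∑ i ∈ range k, tent b (y i - u)) :=
    hasSum_sum fun i _ => hasSum_tent hb0 hb (y i - u)
  have h2 : HasSum (fun h : ℕ => if h ∈ range 1 then (k : ℝ) else 0) (k : ℝ) := by
    have h6 : HasSum (fun h : ℕ => if h ∈ range 1 then (k : ℝ) else 0)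
        (∑ h ∈ range 1, (if h ∈ range 1 then (k : ℝ) else 0)) :=
      hasSum_sum_of_ne_finset_zero (fun h hh => if_neg hh)
    have h7 : ∑ h ∈ range 1, (if h ∈ range 1 then (k : ℝ) else 0) = k := by simp
    rwa [h7] at h6
  have h3 : HasSum (fun h : ℕ => ∑ i ∈ range k, wt b h * cos (2 * π * h * (y i - u)) -
      (if h ∈ range 1 then (k : ℝ) else 0)) (∑ i ∈ range k, (tent b (y i - u) - 1)) := by
    have h6 := h1.sub h2
    have h7 : ∑ i ∈ range k, (tent b (y i - u) - 1) = (∑ i ∈ range k, tent b (y i - u)) - k := by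
      rw [Finset.sum_sub_distrib]; simp
    rwa [h7]
  -- the majorant
  have h4 : HasSum (fun h : ℕ => if h ∈ range H then wt b h else 0) (∑ h ∈ range H, wt b h) := by
    have h6 : HasSum (fun h : ℕ => if h ∈ range H then wt b h else 0)
        (∑ h ∈ range H, (if h ∈ range H then wt b h else 0)) :=
      hasSum_sum_of_ne_finset_zero (fun h hh => if_neg hh)
    have h5 : ∑ h ∈ range H, (if h ∈ range H then wt b h else 0) = ∑ h ∈ range H, wt b h :=
      Finset.sum_congr rfl fun h hh => if_pos hh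
    rwa [h5] at h6
  have h5 : HasSum (fun h : ℕ => wt b h * (η * b / 2 * k) +
      (wt b h - (if h ∈ range H then wt b h else 0)) * k)
      (1 / b * (η * b / 2 * k) + (1 / b - ∑ h ∈ range H, wt b h) * k) :=
    (hw.mul_right _).add ((hw.sub h4).mul_right _)
  have h6 : ∀ h : ℕ, |∑ i ∈ range k, wt b h * cos (2 * π * h * (y i - u)) -
      (if h ∈ range 1 then (k : ℝ) else 0)| ≤ wt b h * (η * b / 2 * k) +
      (wt b h - (if h ∈ range H then wt b h else 0)) * k := by
    intro h
    have hwt := wt_nonneg b h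
    rcases Nat.eq_zero_or_pos h with h0 | h0
    · subst h0
      have h7 : ∑ i ∈ range k, wt b 0 * cos (2 * π * ((0 : ℕ) : ℝ) * (y i - u)) = k := by
        rw [wt_zero]
        simp
      rw [h7, if_pos (by simp), sub_self, abs_zero]
      have h8 : (0 : ℝ) ≤ wt b 0 - (if 0 ∈ range H then wt b 0 else 0) := by
        split_ifs
        · simp
        · simpa using hwt
      positivity
    · have h7 : ¬ h ∈ range 1 := by
        rw [mem_range]; omega
      rw [if_neg h7, sub_zero, ← mul_sum, abs_mul, abs_of_nonneg hwt]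
      have h8 := cos_sum k y h u
      by_cases hH' : h ∈ range H
      · rw [if_pos hH', sub_self, zero_mul, add_zero]
        exact mul_le_mul_of_nonneg_left (h8.trans (hes h h0 (mem_range.1 hH').le)) hwt
      · rw [if_neg hH', sub_zero]
        have h9 : 0 ≤ wt b h * (η * b / 2 * k) := by positivity
        have h10 := mul_le_mul_of_nonneg_left (h8.trans (norm_es_le k y h)) hwt
        linarith
  have h7 : |∑ i ∈ range k, (tent b (y i - u) - 1)| ≤
      1 / b * (η * b / 2 * k) + (1 / b - ∑ h ∈ range H, wt b h) * k := by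
    rw [abs_le]
    constructor
    · have := hasSum_le (fun h => (abs_le.1 (h6 h)).1) h5.neg h3
      linarith
    · exact hasSum_le (fun h => (abs_le.1 (h6 h)).2) h3 h5
  refine h7.trans ?_
  have h8 : 1 / b * (η * b / 2 * k) = η / 2 * k := by field_simp
  rw [h8]
  nlinarith

open Classical in
/-- the number of `i < k` such that `y i` modulo one is in `[w / B, (w + 1) / B)` -/
noncomputable def cnt (k : ℕ) (y : ℕ → ℝ) (B w : ℕ) : ℕ :=
  #{i ∈ range k | (w : ℝ) ≤ B * Int.fract (y i) ∧ B * Int.fract (y i) < w + 1}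

theorem sq_tent {b : ℝ} (hb : 0 < b) (v : ℝ) : b ^ 2 * tent b v = max 0 (b - |v - round v|) := by
  unfold tent
  rw [show b ^ 2 * (1 / b * max 0 (1 - |v - round v| / b)) = b * max 0 (1 - |v - round v| / b) by
    field_simp]
  rw [mul_max_of_nonneg _ _ hb.le, mul_zero]
  congr 1
  field_simp

/-- a trapezoid below the indicator of an interval -/
theorem trap_le {B w : ℕ} (hw : w < B) {s : ℝ} (hs0 : 0 < s) (hs1 : s < 1) (y : ℝ) :
    (1 / (2 * (B : ℝ))) ^ 2 * tent (1 / (2 * B)) (y - (w + 1 / 2) / B) -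
      ((1 - s) * (1 / (2 * (B : ℝ)))) ^ 2 * tent ((1 - s) * (1 / (2 * B))) (y - (w + 1 / 2) / B) ≤
      if (w : ℝ) ≤ B * Int.fract y ∧ B * Int.fract y < w + 1 then s * (1 / (2 * (B : ℝ))) else 0 := by
  have hB : (0 : ℝ) < B := by exact_mod_cast (show 0 < B by omega)
  set R : ℝ := 1 / (2 * (B : ℝ)) with hR
  have hR0 : 0 < R := by positivity
  have hR2 : 0 < (1 - s) * R := mul_pos (by linarith) hR0
  rw [sq_tent hR0, sq_tent hR2]
  set v : ℝ := y - (w + 1 / 2) / B with hv
  set d : ℝ := |v - round v| with hd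
  by_cases hdR : d < R
  · have h1 : (w : ℝ) < B * Int.fract y ∧ B * Int.fract y < w + 1 := by
      rw [hd, abs_lt, hv] at hdR
      obtain ⟨h2, h3⟩ := hdR
      set n : ℤ := round (y - (w + 1 / 2) / B) with hn
      have hc : ((w : ℝ) + 1 / 2) / B = w / B + R := by rw [hR]; field_simp
      have h4 : (w : ℝ) / B < y - n := by linarith
      have h5 : y - n < (w : ℝ) / B + 2 * R := by linarith
      have h6 : (w : ℝ) / B + 2 * R = (w + 1) / B := by rw [hR]; field_simp
      rw [h6] at h5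
      have h7 : ((w : ℝ) + 1) / B ≤ 1 := by
        rw [div_le_one hB]
        exact_mod_cast hw
      have h8 : (0 : ℝ) ≤ (w : ℝ) / B := by positivity
      have h9 : Int.fract y = y - n := by
        rw [Int.fract_eq_iff]
        exact ⟨by linarith, by linarith, n, by ring⟩
      rw [h9]
      constructor
      · rw [div_lt_iff₀ hB] at h4
        linarith
      · rw [lt_div_iff₀ hB] at h5
        linarith
    rw [if_pos ⟨h1.1.le, h1.2⟩]
    have h2 : max 0 (R - d) = R - d := max_eq_right (by linarith)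
    rw [h2]
    have h3 : (1 - s) * R - d ≤ max 0 ((1 - s) * R - d) := le_max_right _ _
    linarith
  · rw [not_lt] at hdR
    have h2 : max 0 (R - d) = 0 := max_eq_left (by linarith)
    have h3 : 0 ≤ max 0 ((1 - s) * R - d) := le_max_left _ _
    rw [h2]
    split_ifs
    · have : 0 ≤ s * R := by positivity
      linarith
    · linarith

theorem cnt_ge {B : ℕ} (hB : 1 ≤ B) {s : ℝ} (hs0 : 0 < s) (hs1 : s < 1) :
    ∃ (H : ℕ) (e : ℝ), 0 < e ∧ ∀ (k : ℕ) (y : ℕ → ℝ),
      (∀ h, 1 ≤ h → h ≤ H → ‖es k y h‖ ≤ e * k) →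
      ∀ w < B, (k : ℝ) / B * (1 - s) ≤ cnt k y B w := by
  classical
  have hB0 : (0 : ℝ) < B := by exact_mod_cast (show 0 < B by omega)
  have hB1 : (1 : ℝ) ≤ B := by exact_mod_cast hB
  set R : ℝ := 1 / (2 * (B : ℝ)) with hR
  have hR0 : 0 < R := by positivity
  have hRh : R ≤ 1 / 2 := by
    rw [hR, div_le_div_iff₀ (by positivity) (by norm_num)]
    linarith
  have hR20 : 0 < (1 - s) * R := mul_pos (by linarith) hR0
  have hR2h : (1 - s) * R ≤ 1 / 2 := by nlinarith
  obtain ⟨H₁, e₁, he₁, h₁⟩ := tent_avg hR0 hRh (η := s ^ 2 / 2) (by positivity)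
  obtain ⟨H₂, e₂, he₂, h₂⟩ := tent_avg hR20 hR2h (η := s ^ 2 / 2) (by positivity)
  refine ⟨max H₁ H₂, min e₁ e₂, lt_min he₁ he₂, fun k y hes w hw => ?_⟩
  have hk : (0 : ℝ) ≤ k := by positivity
  have g₁ := h₁ k y ((w + 1 / 2) / B) (fun h h0 h1 => (hes h h0 (h1.trans (le_max_left _ _))).trans
    (mul_le_mul_of_nonneg_right (min_le_left _ _) hk))
  have g₂ := h₂ k y ((w + 1 / 2) / B) (fun h h0 h1 => (hes h h0 (h1.trans (le_max_right _ _))).trans
    (mul_le_mul_of_nonneg_right (min_le_right _ _) hk))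
  rw [Finset.sum_sub_distrib, Finset.sum_const, card_range, nsmul_eq_mul, mul_one, abs_le] at g₁ g₂
  set T₁ := ∑ i ∈ range k, tent R (y i - (w + 1 / 2) / B) with hT₁
  set T₂ := ∑ i ∈ range k, tent ((1 - s) * R) (y i - (w + 1 / 2) / B) with hT₂
  have h3 : R ^ 2 * T₁ - ((1 - s) * R) ^ 2 * T₂ ≤ cnt k y B w * (s * R) := by
    have h4 : R ^ 2 * T₁ - ((1 - s) * R) ^ 2 * T₂ =
        ∑ i ∈ range k, (R ^ 2 * tent R (y i - (w + 1 / 2) / B) -
          ((1 - s) * R) ^ 2 * tent ((1 - s) * R) (y i - (w + 1 / 2) / B)) := by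
      rw [Finset.sum_sub_distrib, ← mul_sum, ← mul_sum]
    rw [h4]
    refine (Finset.sum_le_sum fun i _ => trap_le hw hs0 hs1 (y i)).trans (le_of_eq ?_)
    rw [← Finset.sum_filter, Finset.sum_const, nsmul_eq_mul]
    rfl
  -- numerics
  have h5 : R ^ 2 * (k - s ^ 2 / 2 * k) ≤ R ^ 2 * T₁ := by
    apply mul_le_mul_of_nonneg_left _ (by positivity)
    linarith [g₁.1]
  have h6 : ((1 - s) * R) ^ 2 * T₂ ≤ ((1 - s) * R) ^ 2 * (k + s ^ 2 / 2 * k) := by
    apply mul_le_mul_of_nonneg_left _ (by positivity)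
    linarith [g₂.2]
  have h7 : R ^ 2 * (k - s ^ 2 / 2 * k) - ((1 - s) * R) ^ 2 * (k + s ^ 2 / 2 * k) ≤
      cnt k y B w * (s * R) := by linarith
  have h8 : (k : ℝ) / B * (1 - s) * (s * R) ≤
      R ^ 2 * (k - s ^ 2 / 2 * k) - ((1 - s) * R) ^ 2 * (k + s ^ 2 / 2 * k) := by
    have h9 : (k : ℝ) / B = 2 * R * k := by rw [hR]; field_simp
    rw [h9]
    have h10 : R ^ 2 * (k - s ^ 2 / 2 * k) - ((1 - s) * R) ^ 2 * (k + s ^ 2 / 2 * k) -
        2 * R * k * (1 - s) * (s * R) = R ^ 2 * k * (s ^ 3 * (1 - s / 2)) := by ring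
    have h11 : 0 ≤ R ^ 2 * k * (s ^ 3 * (1 - s / 2)) := by
      have : 0 ≤ 1 - s / 2 := by linarith
      positivity
    linarith
  exact le_of_mul_le_mul_right (h8.trans h7) (by positivity)

theorem sum_cnt (k : ℕ) (y : ℕ → ℝ) {B : ℕ} (hB : 1 ≤ B) : ∑ w ∈ range B, cnt k y B w = k := by
  classical
  have hB0 : (0 : ℝ) < B := by exact_mod_cast (show 0 < B by omega)
  have h1 := Finset.card_eq_sum_card_fiberwise (s := range k) (t := range B)
    (f := fun i => ⌊(B : ℝ) * Int.fract (y i)⌋₊) (fun i _ => by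
      simp only [coe_range, Set.mem_Iio]
      rw [Nat.floor_lt (by positivity)]
      have := Int.fract_lt_one (y i)
      nlinarith)
  rw [card_range] at h1
  conv_rhs => rw [h1]
  refine Finset.sum_congr rfl fun w _ => ?_
  unfold cnt
  congr 1
  ext i
  rw [mem_filter, mem_filter]
  refine and_congr_right fun _ => ?_
  exact (Nat.floor_eq_iff (by positivity)).symm

theorem exists_dir (z : ℂ) : ∃ d : Fin 4, ‖z‖ / 2 ≤ (Complex.I ^ (d : ℕ) * z).re := by
  have h1 : ‖z‖ ≤ |z.re| + |z.im| := Complex.norm_le_abs_re_add_abs_im z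
  rcases le_total |z.im| |z.re| with h | h
  · rcases abs_choice z.re with h2 | h2
    · refine ⟨0, ?_⟩
      simp only [Fin.val_zero, pow_zero, one_mul]
      linarith
    · refine ⟨2, ?_⟩
      have : (Complex.I ^ ((2 : Fin 4) : ℕ) * z).re = - z.re := by
        show (Complex.I ^ 2 * z).re = _
        rw [Complex.I_sq]; simp
      rw [this]
      linarith
  · rcases abs_choice z.im with h2 | h2
    · refine ⟨3, ?_⟩
      have : (Complex.I ^ ((3 : Fin 4) : ℕ) * z).re = z.im := by
        show (Complex.I ^ 3 * z).re = _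
        rw [pow_succ, Complex.I_sq]; simp
      rw [this]
      linarith
    · refine ⟨1, ?_⟩
      have : (Complex.I ^ ((1 : Fin 4) : ℕ) * z).re = - z.im := by
        show (Complex.I ^ 1 * z).re = _
        rw [pow_one]; simp
      rw [this]
      linarith

/-- **Quantitative Weyl criterion.** -/
theorem weyl {B : ℕ} (hB : 1 ≤ B) {ε : ℝ} (hε : 0 < ε) :
    ∃ (H : ℕ) (e : ℝ), 0 < e ∧ ∀ (k : ℕ) (y : ℕ → ℝ) (w : ℕ), w < B →
      ε * k ≤ |(cnt k y B w : ℝ) - k / B| →
      ∃ h, 1 ≤ h ∧ h ≤ H ∧ ∃ d : Fin 4, e * k ≤ (Complex.I ^ (d : ℕ) * es k y h).re := by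
  classical
  have hB0 : (0 : ℝ) < B := by exact_mod_cast (show 0 < B by omega)
  set s : ℝ := min ε 1 / 2 with hs
  have hm : 0 < min ε 1 := lt_min hε one_pos
  have hs0 : 0 < s := by positivity
  have hs1 : s < 1 := by
    have := min_le_right ε 1
    rw [hs]; linarith
  have hsε : s < ε := by
    have := min_le_left ε 1
    rw [hs]; linarith
  obtain ⟨H, e, he, hH⟩ := cnt_ge hB hs0 hs1
  refine ⟨max H 1, e / 2, by positivity, fun k y w hw hdev => ?_⟩
  rcases Nat.eq_zero_or_pos k with h0 | h0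
  · subst h0
    refine ⟨1, le_rfl, le_max_right _ _, 0, ?_⟩
    simp [es]
  have hk : (0 : ℝ) < k := by exact_mod_cast h0
  have hex : ∃ h, 1 ≤ h ∧ h ≤ H ∧ e * k < ‖es k y h‖ := by
    by_contra hcon
    push Not at hcon
    have h1 := hH k y hcon
    have h2 := h1 w hw
    have h3 : (cnt k y B w : ℝ) ≤ k / B + s * k := by
      have h4 : ∑ w' ∈ range B, (cnt k y B w' : ℝ) = k := by exact_mod_cast sum_cnt k y hB
      rw [← Finset.add_sum_erase _ _ (mem_range.2 hw)] at h4
      have h5 : ∑ w' ∈ (range B).erase w, ((k : ℝ) / B * (1 - s)) ≤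
          ∑ w' ∈ (range B).erase w, (cnt k y B w' : ℝ) :=
        Finset.sum_le_sum fun w' hw' => h1 w' (mem_range.1 (mem_of_mem_erase hw'))
      rw [Finset.sum_const, card_erase_of_mem (mem_range.2 hw), card_range, nsmul_eq_mul] at h5
      have h6 : ((B - 1 : ℕ) : ℝ) = B - 1 := by
        rw [Nat.cast_sub hB]; simp
      rw [h6] at h5
      have h7 : ((B : ℝ) - 1) * ((k : ℝ) / B * (1 - s)) = k - k / B - s * k + s * (k / B) := by
        field_simp
        ring
      have h8 : 0 ≤ s * ((k : ℝ) / B) := by positivity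
      linarith
    have h4 : |(cnt k y B w : ℝ) - k / B| ≤ s * k := by
      rw [abs_le]
      constructor
      · have h5 : (k : ℝ) / B * s ≤ s * k := by
          rw [mul_comm]
          apply mul_le_mul_of_nonneg_left _ hs0.le
          exact div_le_self hk.le (by exact_mod_cast hB)
        nlinarith
      · linarith
    have h5 : s * k < ε * k := mul_lt_mul_of_pos_right hsε hk
    linarith
  obtain ⟨h, h1, h2, h3⟩ := hex
  obtain ⟨d, hd⟩ := exists_dir (es k y h)
  exact ⟨h, h1, h2.trans (le_max_left _ _), d, by linarith⟩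

end Pool.Agent.Helper67.NM
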