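import Pool.Agent.Helper67.NM.Weyl

/-!
The Weyl criterion for one interval, with eight directions.
-/

set_option autoImplicit false

open Finset Filter Real

namespace Pool.Agent.Helper67.NM

open Pool.Agent.Helper73.RG Pool.Agent.Helper73.MD

theorem dir8 (d : Fin 4) : ∃ d' : ℕ, d' < 8 ∧
    Complex.I ^ (d : ℕ) = Complex.exp (-(2 * π * Complex.I * ((d' : ℂ) / 8))) := by
  have hI : Complex.exp (π / 2 * Complex.I) = Complex.I := by
    rw [← Complex.ofReal_ofNat, ← Complex.ofReal_div, Complex.exp_mul_I,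
      ← Complex.ofReal_cos, ← Complex.ofReal_sin]
    simp
  have h2 : Complex.exp (2 * π * Complex.I) = 1 := Complex.exp_two_pi_mul_I
  fin_cases d
  · exact ⟨0, by norm_num, by simp⟩
  · refine ⟨6, by norm_num, ?_⟩
    show Complex.I ^ 1 = _
    rw [pow_one]
    have : Complex.exp (-(2 * π * Complex.I * (((6 : ℕ) : ℂ) / 8))) =
        Complex.exp (π / 2 * Complex.I) / Complex.exp (2 * π * Complex.I) := by
      rw [← Complex.exp_sub]
      congr 1
      push_cast
      ring
    rw [this, h2, div_one, hI]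
  · refine ⟨4, by norm_num, ?_⟩
    show Complex.I ^ 2 = _
    rw [Complex.I_sq]
    have : Complex.exp (-(2 * π * Complex.I * (((4 : ℕ) : ℂ) / 8))) =
        Complex.exp (π * Complex.I) / Complex.exp (2 * π * Complex.I) := by
      rw [← Complex.exp_sub]
      congr 1
      push_cast
      ring
    rw [this, h2, div_one, Complex.exp_pi_mul_I]
  · refine ⟨2, by norm_num, ?_⟩
    show Complex.I ^ 3 = _
    have : Complex.exp (-(2 * π * Complex.I * (((2 : ℕ) : ℂ) / 8))) =
        (Complex.exp (π / 2 * Complex.I))⁻¹ := by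
      rw [← Complex.exp_neg]
      congr 1
      push_cast
      ring
    rw [this, hI, Complex.inv_I, pow_succ, Complex.I_sq]
    ring

open Classical in
/-- the Weyl criterion for the interval `[0, 1 / q)` -/
theorem weyl16 (q : ℕ) (hq : 1 ≤ q) {ε : ℝ} (hε : 0 < ε) :
    ∃ (H : ℕ) (e : ℝ), 0 < e ∧ ∀ (k : ℕ) (y : ℕ → ℝ),
      ε * k ≤ |((#{i ∈ range k | (q : ℝ) * Int.fract (y i) < 1} : ℕ) : ℝ) - k / q| →
      ∃ h ∈ Finset.Icc 1 H, ∃ d : ℕ, d < 8 ∧
        e * k ≤ (∑ i ∈ range k, Complex.exp (2 * π * Complex.I * (h * y i)) *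
          Complex.exp (-(2 * π * Complex.I * ((d : ℂ) / 8)))).re := by
  obtain ⟨H, e, he, hH⟩ := weyl hq hε
  refine ⟨H, e, he, fun k y hdev => ?_⟩
  have h1 : (#{i ∈ range k | (q : ℝ) * Int.fract (y i) < 1} : ℕ) = cnt k y q 0 := by
    unfold cnt
    congr 1
    ext i
    rw [mem_filter, mem_filter]
    refine and_congr_right fun _ => ?_
    have h2 : (0 : ℝ) ≤ (q : ℝ) * Int.fract (y i) := by positivity
    simp [h2]
  rw [h1] at hdev
  obtain ⟨h, hh1, hh2, d, hd⟩ := hH k y 0 (by omega) hdev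
  obtain ⟨d', hd', hI⟩ := dir8 d
  refine ⟨h, mem_Icc.2 ⟨hh1, hh2⟩, d', hd', ?_⟩
  rw [hI] at hd
  refine hd.trans (le_of_eq ?_)
  congr 1
  unfold es
  rw [mul_comm, sum_mul]
  refine Finset.sum_congr rfl fun i _ => ?_
  congr 1
  unfold ee
  congr 1
  push_cast
  ring

end Pool.Agent.Helper67.NM
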