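import Pool.Agent.Helper67.NM.Weyl

/-!
Reduction to frequencies which are not divisible by the base.
-/

set_option autoImplicit false

open Finset Filter Real

namespace Pool.Agent.Helper67.NM

open Pool.Agent.Helper73.RG Pool.Agent.Helper73.MD

theorem norm_range_sub_le {F : ℕ → ℂ} (hF : ∀ j, ‖F j‖ ≤ 1) (a b : ℕ) :
    ‖∑ j ∈ range a, F j - ∑ j ∈ range b, F j‖ ≤ (a - b : ℕ) + (b - a : ℕ) := by
  rcases le_total a b with h | h
  · obtain ⟨d, rfl⟩ := Nat.exists_eq_add_of_le h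
    rw [Finset.sum_range_add]
    rw [show ∑ j ∈ range a, F j - (∑ j ∈ range a, F j + ∑ x ∈ range d, F (a + x)) =
      - ∑ x ∈ range d, F (a + x) by ring, norm_neg]
    have h1 : ‖∑ x ∈ range d, F (a + x)‖ ≤ ∑ x ∈ range d, (1 : ℝ) :=
      norm_sum_le_of_le _ fun x _ => hF _
    rw [Finset.sum_const, card_range, nsmul_eq_mul, mul_one] at h1
    have h2 : a - (a + d) = 0 := by omega
    have h3 : a + d - a = d := by omega
    rw [h2, h3]
    simpa using h1
  · obtain ⟨d, rfl⟩ := Nat.exists_eq_add_of_le h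
    rw [Finset.sum_range_add]
    rw [show (∑ j ∈ range b, F j + ∑ x ∈ range d, F (b + x)) - ∑ j ∈ range b, F j =
      ∑ x ∈ range d, F (b + x) by ring]
    have h1 : ‖∑ x ∈ range d, F (b + x)‖ ≤ ∑ x ∈ range d, (1 : ℝ) :=
      norm_sum_le_of_le _ fun x _ => hF _
    rw [Finset.sum_const, card_range, nsmul_eq_mul, mul_one] at h1
    have h2 : b - (b + d) = 0 := by omega
    have h3 : b + d - b = d := by omega
    rw [h2, h3]
    simpa using h1

/-- the exponential sum along the powers of `b` -/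
noncomputable def bs (b K : ℕ) (n h : ℕ) : ℂ :=
  ∑ j ∈ range K, ee ((h : ℝ) * ((b : ℝ) ^ j * n) / (b : ℝ) ^ K)

theorem shift {b : ℕ} (hb : 2 ≤ b) (l H : ℕ) {e : ℝ} (he : 0 < e) :
    ∃ K₀ : ℕ, ∀ K, K₀ ≤ K → ∀ (n h : ℕ) (d : Fin 4), 1 ≤ h → h ≤ H →
      e * ((K + 1 - l : ℕ) : ℝ) ≤
        (Complex.I ^ (d : ℕ) * es (K + 1 - l) (fun i => (n : ℝ) / (b : ℝ) ^ (i + l)) h).re →
      ∃ h₀, 1 ≤ h₀ ∧ h₀ ≤ H ∧ ¬ b ∣ h₀ ∧
        e / 2 * K ≤ (Complex.I ^ (d : ℕ) * bs b K n h₀).re := by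
  obtain ⟨K₁, hK₁⟩ := exists_nat_ge (2 * (e * l + (2 * H + 1 + l)) / e)
  refine ⟨max K₁ l, fun K hK n h d h1 hH hes => ?_⟩
  have hKl : l ≤ K := (le_max_right _ _).trans hK
  have hb0 : (0 : ℝ) < b := by exact_mod_cast (show 0 < b by omega)
  obtain ⟨s, h₀, hnd, hh⟩ := Nat.exists_eq_pow_mul_and_not_dvd (n := h) (by omega) b (by omega)
  have hpow : 0 < b ^ s := by positivity
  have hh₀ : 1 ≤ h₀ := by
    rcases Nat.eq_zero_or_pos h₀ with h2 | h2
    · rw [h2] at hnd; exact absurd (dvd_zero b) hnd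
    · exact h2
  have hh₀H : h₀ ≤ H := by
    refine le_trans ?_ hH
    rw [hh]
    exact Nat.le_mul_of_pos_left _ hpow
  have hsH : s ≤ H := by
    refine le_trans ?_ hH
    rw [hh]
    calc s ≤ b ^ s := (Nat.lt_pow_self (by omega)).le
      _ ≤ b ^ s * h₀ := Nat.le_mul_of_pos_right _ hh₀
  refine ⟨h₀, hh₀, hh₀H, hnd, ?_⟩
  set k : ℕ := K + 1 - l with hk
  set F : ℕ → ℂ := fun j => ee ((h₀ : ℝ) * ((b : ℝ) ^ j * n) / (b : ℝ) ^ K) with hF
  have hF1 : ∀ j, ‖F j‖ ≤ 1 := fun j => by simp only [hF, norm_ee, le_refl]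
  -- the sum of the Weyl criterion is a shifted sum
  have h2 : es k (fun i => (n : ℝ) / (b : ℝ) ^ (i + l)) h = ∑ j ∈ range k, F (s + j) := by
    unfold es
    rw [← Finset.sum_range_reflect]
    refine Finset.sum_congr rfl fun j hj => ?_
    rw [mem_range] at hj
    simp only [hF]
    congr 1
    have h3 : k - 1 - j + l = K - j := by omega
    have h4 : K = (K - j) + j := by omega
    rw [h3, hh]
    push_cast
    have h5 : (b : ℝ) ^ K = (b : ℝ) ^ (K - j) * (b : ℝ) ^ j := by rw [← pow_add, ← h4]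
    rw [h5, pow_add]
    field_simp
  have h3 : ‖(∑ j ∈ range k, F (s + j)) - ∑ j ∈ range K, F j‖ ≤ 2 * H + 1 + l := by
    have h4 : ∑ j ∈ range (s + k), F j = ∑ j ∈ range s, F j + ∑ j ∈ range k, F (s + j) :=
      Finset.sum_range_add _ _ _
    have h5 : (∑ j ∈ range k, F (s + j)) - ∑ j ∈ range K, F j =
        (∑ j ∈ range (s + k), F j - ∑ j ∈ range K, F j) -
          (∑ j ∈ range s, F j - ∑ j ∈ range 0, F j) := by
      rw [h4, Finset.sum_range_zero]; ring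
    rw [h5]
    refine (norm_sub_le _ _).trans ?_
    have h6 := norm_range_sub_le hF1 (s + k) K
    have h7 := norm_range_sub_le hF1 s 0
    have h8 : (s + k - K : ℕ) + (K - (s + k) : ℕ) ≤ H + 1 + l := by omega
    have h9 : (s - 0 : ℕ) + (0 - s : ℕ) ≤ H := by omega
    have h8' : ((s + k - K : ℕ) : ℝ) + ((K - (s + k) : ℕ) : ℝ) ≤ H + 1 + l := by exact_mod_cast h8
    have h9' : ((s - 0 : ℕ) : ℝ) + ((0 - s : ℕ) : ℝ) ≤ H := by exact_mod_cast h9
    linarith
  rw [h2] at hes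
  have h4 : (Complex.I ^ (d : ℕ) * ∑ j ∈ range k, F (s + j)).re ≤
      (Complex.I ^ (d : ℕ) * ∑ j ∈ range K, F j).re + (2 * H + 1 + l) := by
    have h5 : (Complex.I ^ (d : ℕ) * ∑ j ∈ range k, F (s + j)).re -
        (Complex.I ^ (d : ℕ) * ∑ j ∈ range K, F j).re ≤ 2 * H + 1 + l := by
      rw [← Complex.sub_re, ← mul_sub]
      refine (Complex.re_le_norm _).trans ?_
      rw [norm_mul, norm_pow, Complex.norm_I, one_pow, one_mul]
      exact h3
    linarith
  have h5 : bs b K n h₀ = ∑ j ∈ range K, F j := rfl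
  rw [h5]
  have h6 : ((k : ℕ) : ℝ) ≥ (K : ℝ) - l := by
    have : K ≤ k + l := by omega
    have : (K : ℝ) ≤ k + l := by exact_mod_cast this
    linarith
  have h7 : 2 * (e * l + (2 * H + 1 + l)) / e ≤ K :=
    hK₁.trans (by exact_mod_cast (le_max_left _ _).trans hK)
  rw [div_le_iff₀ he] at h7
  nlinarith

end Pool.Agent.Helper67.NM
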