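import Pool.Agent.Helper67.NM.Iface

/-!
Quantitative Weyl criterion in two variables.
-/

set_option autoImplicit false

open Finset Filter Real

namespace Pool.Agent.Helper67.NM

open Pool.Agent.Helper73.RG Pool.Agent.Helper73.MD

/-- the exponential sum in two variables -/
noncomputable def es2 (I : Finset ℕ) (y z : ℕ → ℝ) (h h' : ℤ) : ℂ :=
  ∑ i ∈ I, ee (h * y i + h' * z i)

theorem cos_cos_sum (I : Finset ℕ) (y z : ℕ → ℝ) (h h' : ℕ) (u v : ℝ) :
    |∑ i ∈ I, cos (2 * π * h * (y i - u)) * cos (2 * π * h' * (z i - v))| ≤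
      (‖es2 I y z h h'‖ + ‖es2 I y z h (-h')‖) / 2 := by
  have h1 : ∑ i ∈ I, cos (2 * π * h * (y i - u)) * cos (2 * π * h' * (z i - v)) =
      ((ee (-(h * u + h' * v)) * es2 I y z h h').re +
        (ee (-(h * u - h' * v)) * es2 I y z h (-h')).re) / 2 := by
    unfold es2
    rw [mul_sum, mul_sum, Complex.re_sum, Complex.re_sum, ← Finset.sum_add_distrib,
      Finset.sum_div]
    refine Finset.sum_congr rfl fun i _ => ?_
    rw [← ee_add, ← ee_add]
    unfold ee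
    rw [Complex.exp_ofReal_mul_I_re, Complex.exp_ofReal_mul_I_re]
    push_cast
    rw [show 2 * π * (-(h * u + h' * v) + (h * y i + h' * z i)) =
      2 * π * h * (y i - u) + 2 * π * h' * (z i - v) by ring,
      show 2 * π * (-(h * u - h' * v) + (h * y i + -h' * z i)) =
      2 * π * h * (y i - u) - 2 * π * h' * (z i - v) by ring, Real.cos_add, Real.cos_sub]
    ring
  rw [h1]
  have h2 : |(ee (-(h * u + h' * v)) * es2 I y z h h').re| ≤ ‖es2 I y z h h'‖ := by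
    refine (Complex.abs_re_le_norm _).trans ?_
    rw [norm_mul, norm_ee, one_mul]
  have h3 : |(ee (-(h * u - h' * v)) * es2 I y z h (-h')).re| ≤ ‖es2 I y z h (-h')‖ := by
    refine (Complex.abs_re_le_norm _).trans ?_
    rw [norm_mul, norm_ee, one_mul]
  rw [abs_le] at h2 h3 ⊢
  constructor
  · linarith [h2.1, h3.1]
  · linarith [h2.2, h3.2]

/-- weighted averages of a tent -/
theorem tent_w {b : ℝ} (hb0 : 0 < b) (hb : b ≤ 1 / 2) {η : ℝ} (hη : 0 < η) :
    ∃ (H : ℕ) (e : ℝ), 0 < e ∧ ∀ (I : Finset ℕ) (k : ℝ) (α y : ℕ → ℝ) (u : ℝ),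
      (∀ i ∈ I, |α i| ≤ 1) → (#I : ℝ) ≤ k →
      (∀ h, 1 ≤ h → h ≤ H → |∑ i ∈ I, α i * cos (2 * π * h * (y i - u))| ≤ e * k) →
      |∑ i ∈ I, α i * (tent b (y i - u) - 1)| ≤ η * k := by
  have hw := hasSum_wt hb0 hb
  have ht : ∀ᶠ n in atTop, 1 / b - η / 2 < ∑ h ∈ range n, wt b h :=
    hw.tendsto_sum_nat.eventually_const_lt (by linarith)
  obtain ⟨H, hH⟩ := ht.exists
  refine ⟨H, η * b / 2, by positivity, fun I k α y u hα hIk hes => ?_⟩
  have hk : (0 : ℝ) ≤ k := (Nat.cast_nonneg _).trans hIk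
  set A : ℝ := ∑ i ∈ I, α i with hA
  -- the Fourier series of the sum
  have h1 : HasSum (fun h : ℕ => ∑ i ∈ I, α i * (wt b h * cos (2 * π * h * (y i - u))))
      (∑ i ∈ I, α i * tent b (y i - u)) :=
    hasSum_sum fun i _ => (hasSum_tent hb0 hb (y i - u)).mul_left _
  have h2 : HasSum (fun h : ℕ => if h ∈ range 1 then A else 0) A := by
    have h6 : HasSum (fun h : ℕ => if h ∈ range 1 then A else 0)
        (∑ h ∈ range 1, (if h ∈ range 1 then A else 0)) :=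
      hasSum_sum_of_ne_finset_zero (fun h hh => if_neg hh)
    have h7 : ∑ h ∈ range 1, (if h ∈ range 1 then A else 0) = A := by simp
    rwa [h7] at h6
  have h3 : HasSum (fun h : ℕ => ∑ i ∈ I, α i * (wt b h * cos (2 * π * h * (y i - u))) -
      (if h ∈ range 1 then A else 0)) (∑ i ∈ I, α i * (tent b (y i - u) - 1)) := by
    have h6 := h1.sub h2
    have h7 : ∑ i ∈ I, α i * (tent b (y i - u) - 1) = (∑ i ∈ I, α i * tent b (y i - u)) - A := by
      rw [hA, ← Finset.sum_sub_distrib]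
      exact Finset.sum_congr rfl fun i _ => by ring
    rwa [h7]
  -- the majorant
  have h4 : HasSum (fun h : ℕ => if h ∈ range H then wt b h else 0) (∑ h ∈ range H, wt b h) := by
    have h6 : HasSum (fun h : ℕ => if h ∈ range H then wt b h else 0)
        (∑ h ∈ range H, (if h ∈ range H then wt b h else 0)) :=
      hasSum_sum_of_ne_finset_zero (fun h hh => if_neg hh)
    have h5 : ∑ h ∈ range H, (if h ∈ range H then wt b h else 0) = ∑ h ∈ range H, wt b h :=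
      Finset.sum_congr rfl fun h hh => if_pos hh
    rwa [h5] at h6
  have h5 : HasSum (fun h : ℕ => wt b h * (η * b / 2 * k) +
      (wt b h - (if h ∈ range H then wt b h else 0)) * k)
      (1 / b * (η * b / 2 * k) + (1 / b - ∑ h ∈ range H, wt b h) * k) :=
    (hw.mul_right _).add ((hw.sub h4).mul_right _)
  have htriv : ∀ h : ℕ, |∑ i ∈ I, α i * cos (2 * π * h * (y i - u))| ≤ k := by
    intro h
    refine (Finset.abs_sum_le_sum_abs _ _).trans (le_trans ?_ hIk)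
    calc ∑ i ∈ I, |α i * cos (2 * π * h * (y i - u))| ≤ ∑ _i ∈ I, (1 : ℝ) := by
          refine Finset.sum_le_sum fun i hi => ?_
          rw [abs_mul]
          exact mul_le_one₀ (hα i hi) (abs_nonneg _) (Real.abs_cos_le_one _)
      _ = #I := by simp
  have h6 : ∀ h : ℕ, |∑ i ∈ I, α i * (wt b h * cos (2 * π * h * (y i - u))) -
      (if h ∈ range 1 then A else 0)| ≤ wt b h * (η * b / 2 * k) +
      (wt b h - (if h ∈ range H then wt b h else 0)) * k := by
    intro h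
    have hwt := wt_nonneg b h
    rcases Nat.eq_zero_or_pos h with h0 | h0
    · subst h0
      have h7 : ∑ i ∈ I, α i * (wt b 0 * cos (2 * π * ((0 : ℕ) : ℝ) * (y i - u))) = A := by
        rw [wt_zero, hA]
        simp
      rw [h7, if_pos (by simp), sub_self, abs_zero]
      have h8 : (0 : ℝ) ≤ wt b 0 - (if 0 ∈ range H then wt b 0 else 0) := by
        split_ifs
        · simp
        · simpa using hwt
      positivity
    · have h7 : ¬ h ∈ range 1 := by
        rw [mem_range]; omega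
      rw [if_neg h7, sub_zero]
      have h8 : ∑ i ∈ I, α i * (wt b h * cos (2 * π * h * (y i - u))) =
          wt b h * ∑ i ∈ I, α i * cos (2 * π * h * (y i - u)) := by
        rw [mul_sum]
        exact Finset.sum_congr rfl fun i _ => by ring
      rw [h8, abs_mul, abs_of_nonneg hwt]
      by_cases hH' : h ∈ range H
      · rw [if_pos hH', sub_self, zero_mul, add_zero]
        exact mul_le_mul_of_nonneg_left (hes h h0 (mem_range.1 hH').le) hwt
      · rw [if_neg hH', sub_zero]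
        have h9 : 0 ≤ wt b h * (η * b / 2 * k) := by positivity
        have h10 := mul_le_mul_of_nonneg_left (htriv h) hwt
        linarith
  have h7 : |∑ i ∈ I, α i * (tent b (y i - u) - 1)| ≤
      1 / b * (η * b / 2 * k) + (1 / b - ∑ h ∈ range H, wt b h) * k := by
    rw [abs_le]
    constructor
    · have := hasSum_le (fun h => (abs_le.1 (h6 h)).1) h5.neg h3
      linarith
    · exact hasSum_le (fun h => (abs_le.1 (h6 h)).2) h3 h5
  refine h7.trans ?_
  have h8 : 1 / b * (η * b / 2 * k) = η / 2 * k := by field_simp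
  rw [h8]
  nlinarith

/-- averages of products of two tents -/
theorem tent2 {b b' : ℝ} (hb0 : 0 < b) (hb : b ≤ 1 / 2) (hb0' : 0 < b') (hb' : b' ≤ 1 / 2)
    {η : ℝ} (hη : 0 < η) :
    ∃ (H : ℕ) (e : ℝ), 0 < e ∧ ∀ (I : Finset ℕ) (k : ℝ) (y z : ℕ → ℝ) (u v : ℝ),
      (#I : ℝ) ≤ k →
      (∀ h h' : ℤ, (h, h') ≠ (0, 0) → |h| ≤ H → |h'| ≤ H → ‖es2 I y z h h'‖ ≤ e * k) →
      |∑ i ∈ I, (tent b (y i - u) * tent b' (z i - v) - 1)| ≤ η * k := by
  -- first the variable `z` with weights `1` and cosines, then the variable `y`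
  obtain ⟨H₁, e₁, he₁, h₁⟩ := tent_w hb0 hb (η := η * b' / 2) (by positivity)
  have hη2 : 0 < min (η / 2) (e₁ / (2 * b')) := lt_min (by positivity) (by positivity)
  obtain ⟨H₂, e₂, he₂, h₂⟩ := tent_w hb0' hb' (η := min (η / 2) (e₁ / (2 * b'))) hη2
  refine ⟨max H₁ H₂, min e₂ (e₁ / (2 * b')), lt_min he₂ (by positivity),
    fun I k y z u v hIk hes => ?_⟩
  have hk : (0 : ℝ) ≤ k := (Nat.cast_nonneg _).trans hIk
  -- products of cosines
  have hcc : ∀ h h' : ℕ, (h, h') ≠ (0, 0) → h ≤ max H₁ H₂ → h' ≤ max H₁ H₂ →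
      |∑ i ∈ I, cos (2 * π * h * (y i - u)) * cos (2 * π * h' * (z i - v))| ≤
        min e₂ (e₁ / (2 * b')) * k := by
    intro h h' hne hh hh'
    refine (cos_cos_sum I y z h h' u v).trans ?_
    have hn1 : ((h : ℤ), (h' : ℤ)) ≠ (0, 0) := by
      intro h3
      rw [Prod.mk.injEq] at h3
      exact hne (by rw [Prod.mk.injEq]; omega)
    have hn2 : ((h : ℤ), -(h' : ℤ)) ≠ (0, 0) := by
      intro h3
      rw [Prod.mk.injEq] at h3
      exact hne (by rw [Prod.mk.injEq]; omega)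
    have g1 := hes h h' hn1 (by rw [Nat.abs_cast]; exact_mod_cast hh)
      (by rw [Nat.abs_cast]; exact_mod_cast hh')
    have g2 := hes h (-h') hn2 (by rw [Nat.abs_cast]; exact_mod_cast hh)
      (by rw [abs_neg, Nat.abs_cast]; exact_mod_cast hh')
    linarith
  -- weights `1`
  have k1 : |∑ i ∈ I, (1 : ℝ) * (tent b' (z i - v) - 1)| ≤ min (η / 2) (e₁ / (2 * b')) * k := by
    refine h₂ I k (fun _ => 1) z v (fun i _ => by simp) hIk fun h' h0 hH => ?_
    have g := hcc 0 h' (by intro h3; rw [Prod.mk.injEq] at h3; omega) (by omega)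
      (hH.trans (le_max_right _ _))
    simp only [Nat.cast_zero, mul_zero, zero_mul, Real.cos_zero, one_mul] at g ⊢
    exact g.trans (mul_le_mul_of_nonneg_right (min_le_left _ _) hk)
  -- weights cosines
  have k2 : ∀ h : ℕ, 1 ≤ h → h ≤ H₁ →
      |∑ i ∈ I, cos (2 * π * h * (y i - u)) * (tent b' (z i - v) - 1)| ≤
        min (η / 2) (e₁ / (2 * b')) * k := by
    intro h h0 hH
    refine h₂ I k (fun i => cos (2 * π * h * (y i - u))) z v
      (fun i _ => Real.abs_cos_le_one _) hIk fun h' h0' hH' => ?_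
    have g := hcc h h' (by intro h3; rw [Prod.mk.injEq] at h3; omega)
      (hH.trans (le_max_left _ _)) (hH'.trans (le_max_right _ _))
    exact g.trans (mul_le_mul_of_nonneg_right (min_le_left _ _) hk)
  have ht1 : ∀ w : ℝ, 0 ≤ tent b' w := fun w => by
    unfold tent
    positivity
  have ht2 : ∀ w : ℝ, b' * tent b' w ≤ 1 := fun w => by
    unfold tent
    rw [show b' * (1 / b' * max 0 (1 - |w - round w| / b')) = max 0 (1 - |w - round w| / b') by
      field_simp]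
    refine max_le zero_le_one ?_
    have : 0 ≤ |w - round w| / b' := by positivity
    linarith
  have k3 : |∑ i ∈ I, b' * tent b' (z i - v) * (tent b (y i - u) - 1)| ≤ η * b' / 2 * k := by
    refine h₁ I k (fun i => b' * tent b' (z i - v)) y u (fun i _ => ?_) hIk fun h h0 hH => ?_
    · rw [abs_of_nonneg (mul_nonneg hb0'.le (ht1 _))]
      exact ht2 _
    · have g1 := k2 h h0 hH
      have g2 := hcc h 0 (by intro h3; rw [Prod.mk.injEq] at h3; omega)
        (hH.trans (le_max_left _ _)) (by omega)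
      simp only [Nat.cast_zero, mul_zero, zero_mul, Real.cos_zero, mul_one] at g2
      have g3 : ∑ i ∈ I, b' * tent b' (z i - v) * cos (2 * π * h * (y i - u)) =
          b' * (∑ i ∈ I, cos (2 * π * h * (y i - u)) * (tent b' (z i - v) - 1) +
            ∑ i ∈ I, cos (2 * π * h * (y i - u))) := by
        rw [← Finset.sum_add_distrib, mul_sum]
        exact Finset.sum_congr rfl fun i _ => by ring
      rw [g3, abs_mul, abs_of_pos hb0']
      have g4 : min (η / 2) (e₁ / (2 * b')) * k ≤ e₁ / (2 * b') * k :=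
        mul_le_mul_of_nonneg_right (min_le_right _ _) hk
      have g5 : min e₂ (e₁ / (2 * b')) * k ≤ e₁ / (2 * b') * k :=
        mul_le_mul_of_nonneg_right (min_le_right _ _) hk
      calc b' * |∑ i ∈ I, cos (2 * π * h * (y i - u)) * (tent b' (z i - v) - 1) +
            ∑ i ∈ I, cos (2 * π * h * (y i - u))|
          ≤ b' * (e₁ / (2 * b') * k + e₁ / (2 * b') * k) := by
            gcongr
            exact (abs_add_le _ _).trans (add_le_add (g1.trans g4) (g2.trans g5))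
        _ = e₁ * k := by field_simp; ring
  have k4 : |∑ i ∈ I, tent b' (z i - v) * (tent b (y i - u) - 1)| ≤ η / 2 * k := by
    have g1 : ∑ i ∈ I, b' * tent b' (z i - v) * (tent b (y i - u) - 1) =
        b' * ∑ i ∈ I, tent b' (z i - v) * (tent b (y i - u) - 1) := by
      rw [mul_sum]
      exact Finset.sum_congr rfl fun i _ => by ring
    rw [g1, abs_mul, abs_of_pos hb0'] at k3
    have g2 : b' * |∑ i ∈ I, tent b' (z i - v) * (tent b (y i - u) - 1)| ≤ b' * (η / 2 * k) := by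
      refine k3.trans (le_of_eq ?_)
      ring
    exact le_of_mul_le_mul_left g2 hb0'
  have k5 : ∑ i ∈ I, (tent b (y i - u) * tent b' (z i - v) - 1) =
      ∑ i ∈ I, tent b' (z i - v) * (tent b (y i - u) - 1) +
        ∑ i ∈ I, (1 : ℝ) * (tent b' (z i - v) - 1) := by
    rw [← Finset.sum_add_distrib]
    exact Finset.sum_congr rfl fun i _ => by ring
  rw [k5]
  have k6 : min (η / 2) (e₁ / (2 * b')) * k ≤ η / 2 * k :=
    mul_le_mul_of_nonneg_right (min_le_left _ _) hk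
  have := (abs_add_le (∑ i ∈ I, tent b' (z i - v) * (tent b (y i - u) - 1))
    (∑ i ∈ I, (1 : ℝ) * (tent b' (z i - v) - 1)))
  linarith

/-- the trapezoid, not normalised -/
noncomputable def trap (B w : ℕ) (s y : ℝ) : ℝ :=
  (1 / (2 * (B : ℝ))) ^ 2 * tent (1 / (2 * B)) (y - (w + 1 / 2) / B) -
    ((1 - s) * (1 / (2 * (B : ℝ)))) ^ 2 * tent ((1 - s) * (1 / (2 * B))) (y - (w + 1 / 2) / B)

theorem trap_nonneg {B : ℕ} (hB : 0 < B) (w : ℕ) {s : ℝ} (hs0 : 0 < s) (hs1 : s < 1) (y : ℝ) :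
    0 ≤ trap B w s y := by
  have hB' : (0 : ℝ) < B := by exact_mod_cast hB
  unfold trap
  set R : ℝ := 1 / (2 * (B : ℝ)) with hR
  have hR0 : 0 < R := by positivity
  have hR2 : 0 < (1 - s) * R := mul_pos (by linarith) hR0
  rw [sq_tent hR0, sq_tent hR2, sub_nonneg]
  refine max_le_max le_rfl ?_
  have : 0 < s * R := mul_pos hs0 hR0
  linarith

open Classical in
/-- the number of `i ∈ I` with `(y i, z i)` modulo one in a box -/
noncomputable def cnt2 (I : Finset ℕ) (y z : ℕ → ℝ) (B w w' : ℕ) : ℕ :=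
  #{i ∈ I | ((w : ℝ) ≤ B * Int.fract (y i) ∧ B * Int.fract (y i) < w + 1) ∧
    ((w' : ℝ) ≤ B * Int.fract (z i) ∧ B * Int.fract (z i) < w' + 1)}

theorem cnt2_ge {B : ℕ} (hB : 1 ≤ B) {s : ℝ} (hs0 : 0 < s) (hs1 : s < 1) :
    ∃ (H : ℕ) (e : ℝ), 0 < e ∧ ∀ (I : Finset ℕ) (k : ℝ) (y z : ℕ → ℝ), (#I : ℝ) ≤ k →
      (∀ h h' : ℤ, (h, h') ≠ (0, 0) → |h| ≤ H → |h'| ≤ H → ‖es2 I y z h h'‖ ≤ e * k) →
      ∀ w < B, ∀ w' < B, (#I : ℝ) / (B : ℝ) ^ 2 - 2 * s * k / (B : ℝ) ^ 2 ≤ cnt2 I y z B w w' := by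
  classical
  have hB0 : (0 : ℝ) < B := by exact_mod_cast (show 0 < B by omega)
  have hB1 : (1 : ℝ) ≤ B := by exact_mod_cast hB
  obtain ⟨R, hR⟩ : ∃ R : ℝ, R = 1 / (2 * (B : ℝ)) := ⟨_, rfl⟩
  have hR0 : 0 < R := by rw [hR]; positivity
  have hRh : R ≤ 1 / 2 := by
    rw [hR, div_le_div_iff₀ (by positivity) (by norm_num)]
    linarith
  obtain ⟨R₂, hR₂⟩ : ∃ R₂ : ℝ, R₂ = (1 - s) * R := ⟨_, rfl⟩
  have hR20 : 0 < R₂ := by rw [hR₂]; exact mul_pos (by linarith) hR0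
  have hR2R : R₂ ≤ R := by rw [hR₂]; nlinarith
  have hR2h : R₂ ≤ 1 / 2 := hR2R.trans hRh
  have hη : 0 < s ^ 3 := by positivity
  obtain ⟨H₁, e₁, he₁, h₁⟩ := tent2 hR0 hRh hR0 hRh hη
  obtain ⟨H₂, e₂, he₂, h₂⟩ := tent2 hR0 hRh hR20 hR2h hη
  obtain ⟨H₃, e₃, he₃, h₃⟩ := tent2 hR20 hR2h hR0 hRh hη
  obtain ⟨H₄, e₄, he₄, h₄⟩ := tent2 hR20 hR2h hR20 hR2h hη
  refine ⟨max (max H₁ H₂) (max H₃ H₄), min (min e₁ e₂) (min e₃ e₄),
    lt_min (lt_min he₁ he₂) (lt_min he₃ he₄), fun I k y z hIk hes w hw w' hw' => ?_⟩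
  have hk : (0 : ℝ) ≤ k := (Nat.cast_nonneg _).trans hIk
  have hH₁ : H₁ ≤ max (max H₁ H₂) (max H₃ H₄) := (le_max_left _ _).trans (le_max_left _ _)
  have hH₂ : H₂ ≤ max (max H₁ H₂) (max H₃ H₄) := (le_max_right _ _).trans (le_max_left _ _)
  have hH₃ : H₃ ≤ max (max H₁ H₂) (max H₃ H₄) := (le_max_left _ _).trans (le_max_right _ _)
  have hH₄ : H₄ ≤ max (max H₁ H₂) (max H₃ H₄) := (le_max_right _ _).trans (le_max_right _ _)
  have hE₁ : min (min e₁ e₂) (min e₃ e₄) ≤ e₁ := (min_le_left _ _).trans (min_le_left _ _)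
  have hE₂ : min (min e₁ e₂) (min e₃ e₄) ≤ e₂ := (min_le_left _ _).trans (min_le_right _ _)
  have hE₃ : min (min e₁ e₂) (min e₃ e₄) ≤ e₃ := (min_le_right _ _).trans (min_le_left _ _)
  have hE₄ : min (min e₁ e₂) (min e₃ e₄) ≤ e₄ := (min_le_right _ _).trans (min_le_right _ _)
  have hgen : ∀ (H' : ℕ) (e' : ℝ), H' ≤ max (max H₁ H₂) (max H₃ H₄) →
      min (min e₁ e₂) (min e₃ e₄) ≤ e' →
      ∀ h h' : ℤ, (h, h') ≠ (0, 0) → |h| ≤ H' → |h'| ≤ H' → ‖es2 I y z h h'‖ ≤ e' * k := by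
    intro H' e' hH' he' h h' hne hh hh'
    have hH'' : (H' : ℤ) ≤ ((max (max H₁ H₂) (max H₃ H₄) : ℕ) : ℤ) := by exact_mod_cast hH'
    exact (hes h h' hne (hh.trans hH'') (hh'.trans hH'')).trans
      (mul_le_mul_of_nonneg_right he' hk)
  set u : ℝ := (w + 1 / 2) / B with hu
  set v : ℝ := (w' + 1 / 2) / B with hv
  have g₁ := h₁ I k y z u v hIk (hgen H₁ e₁ hH₁ hE₁)
  have g₂ := h₂ I k y z u v hIk (hgen H₂ e₂ hH₂ hE₂)
  have g₃ := h₃ I k y z u v hIk (hgen H₃ e₃ hH₃ hE₃)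
  have g₄ := h₄ I k y z u v hIk (hgen H₄ e₄ hH₄ hE₄)
  rw [Finset.sum_sub_distrib, Finset.sum_const, nsmul_eq_mul, mul_one, abs_le] at g₁ g₂ g₃ g₄
  set T₁ := ∑ i ∈ I, tent R (y i - u) * tent R (z i - v) with hT₁
  set T₂ := ∑ i ∈ I, tent R (y i - u) * tent R₂ (z i - v) with hT₂
  set T₃ := ∑ i ∈ I, tent R₂ (y i - u) * tent R (z i - v) with hT₃
  set T₄ := ∑ i ∈ I, tent R₂ (y i - u) * tent R₂ (z i - v) with hT₄
  -- the upper bound by the count
  have htr : ∀ (c : ℕ) (x : ℝ), trap B c s x =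
      R ^ 2 * tent R (x - (c + 1 / 2) / B) - R₂ ^ 2 * tent R₂ (x - (c + 1 / 2) / B) := by
    intro c x
    unfold trap
    rw [hR₂, hR]
  have h5 : R ^ 4 * T₁ - R ^ 2 * R₂ ^ 2 * T₂ - R ^ 2 * R₂ ^ 2 * T₃ + R₂ ^ 4 * T₄ =
      ∑ i ∈ I, trap B w s (y i) * trap B w' s (z i) := by
    rw [hT₁, hT₂, hT₃, hT₄, mul_sum, mul_sum, mul_sum, mul_sum, ← Finset.sum_sub_distrib,
      ← Finset.sum_sub_distrib, ← Finset.sum_add_distrib]
    refine Finset.sum_congr rfl fun i _ => ?_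
    rw [htr, htr]
    ring
  have h6 : ∑ i ∈ I, trap B w s (y i) * trap B w' s (z i) ≤ cnt2 I y z B w w' * (s * R) ^ 2 := by
    have h7 : ∀ i ∈ I, trap B w s (y i) * trap B w' s (z i) ≤
        if ((w : ℝ) ≤ B * Int.fract (y i) ∧ B * Int.fract (y i) < w + 1) ∧
          ((w' : ℝ) ≤ B * Int.fract (z i) ∧ B * Int.fract (z i) < w' + 1) then (s * R) ^ 2
          else 0 := by
      intro i _
      have t1 := trap_le hw hs0 hs1 (y i)
      have t2 := trap_le hw' hs0 hs1 (z i)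
      have n1 := trap_nonneg (B := B) (by omega) w hs0 hs1 (y i)
      have n2 := trap_nonneg (B := B) (by omega) w' hs0 hs1 (z i)
      change trap B w s (y i) ≤ _ at t1
      change trap B w' s (z i) ≤ _ at t2
      rw [← hR] at t1 t2
      by_cases c1 : (w : ℝ) ≤ B * Int.fract (y i) ∧ B * Int.fract (y i) < w + 1
      · by_cases c2 : (w' : ℝ) ≤ B * Int.fract (z i) ∧ B * Int.fract (z i) < w' + 1
        · rw [if_pos c1] at t1
          rw [if_pos c2] at t2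
          rw [if_pos ⟨c1, c2⟩, sq]
          exact mul_le_mul t1 t2 n2 (by positivity)
        · rw [if_neg c2] at t2
          rw [if_neg (fun h => c2 h.2)]
          have : trap B w' s (z i) = 0 := le_antisymm t2 n2
          rw [this, mul_zero]
      · rw [if_neg c1] at t1
        rw [if_neg (fun h => c1 h.1)]
        have : trap B w s (y i) = 0 := le_antisymm t1 n1
        rw [this, zero_mul]
    refine (Finset.sum_le_sum h7).trans (le_of_eq ?_)
    rw [← Finset.sum_filter, Finset.sum_const, nsmul_eq_mul]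
    rfl
  -- numerics
  have hRR : 0 ≤ R ^ 2 * R₂ ^ 2 := by positivity
  have m1 : R ^ 4 * (#I - s ^ 3 * k) ≤ R ^ 4 * T₁ :=
    mul_le_mul_of_nonneg_left (by linarith [g₁.1]) (by positivity)
  have m2 : R ^ 2 * R₂ ^ 2 * T₂ ≤ R ^ 2 * R₂ ^ 2 * (#I + s ^ 3 * k) :=
    mul_le_mul_of_nonneg_left (by linarith [g₂.2]) hRR
  have m3 : R ^ 2 * R₂ ^ 2 * T₃ ≤ R ^ 2 * R₂ ^ 2 * (#I + s ^ 3 * k) :=
    mul_le_mul_of_nonneg_left (by linarith [g₃.2]) hRR
  have m4 : R₂ ^ 4 * (#I - s ^ 3 * k) ≤ R₂ ^ 4 * T₄ :=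
    mul_le_mul_of_nonneg_left (by linarith [g₄.1]) (by positivity)
  have h7 : (R ^ 2 - R₂ ^ 2) ^ 2 * #I - (R ^ 2 + R₂ ^ 2) ^ 2 * (s ^ 3 * k) ≤
      cnt2 I y z B w w' * (s * R) ^ 2 := by
    refine le_trans ?_ (h5.le.trans h6)
    nlinarith
  have h8 : (R ^ 2 + R₂ ^ 2) ^ 2 * (s ^ 3 * k) ≤ 4 * R ^ 4 * (s ^ 3 * k) := by
    apply mul_le_mul_of_nonneg_right _ (by positivity)
    have : R₂ ^ 2 ≤ R ^ 2 := by gcongr
    have h9 : R ^ 2 + R₂ ^ 2 ≤ 2 * R ^ 2 := by linarith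
    calc (R ^ 2 + R₂ ^ 2) ^ 2 ≤ (2 * R ^ 2) ^ 2 := by gcongr
      _ = 4 * R ^ 4 := by ring
  have h9 : (R ^ 2 - R₂ ^ 2) ^ 2 = R ^ 4 * s ^ 2 * (2 - s) ^ 2 := by rw [hR₂]; ring
  have h10 : R ^ 4 * s ^ 2 * (4 * (1 - s)) * #I ≤ (R ^ 2 - R₂ ^ 2) ^ 2 * #I := by
    rw [h9]
    apply mul_le_mul_of_nonneg_right _ (Nat.cast_nonneg _)
    apply mul_le_mul_of_nonneg_left _ (by positivity)
    nlinarith
  have h11 : (s * R) ^ 2 * (4 * R ^ 2 * ((1 - s) * #I - s * k)) ≤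
      (s * R) ^ 2 * cnt2 I y z B w w' := by nlinarith
  have h12 := le_of_mul_le_mul_left h11 (by positivity)
  refine le_trans ?_ h12
  have h13 : 4 * R ^ 2 = 1 / (B : ℝ) ^ 2 := by rw [hR]; field_simp; norm_num
  rw [h13]
  have h14 : (#I : ℝ) / (B : ℝ) ^ 2 - 2 * s * k / (B : ℝ) ^ 2 =
      1 / (B : ℝ) ^ 2 * (#I - 2 * s * k) := by ring
  rw [h14]
  apply mul_le_mul_of_nonneg_left _ (by positivity)
  nlinarith

theorem sum_cnt2 (I : Finset ℕ) (y z : ℕ → ℝ) {B : ℕ} (hB : 1 ≤ B) :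
    ∑ p ∈ range B ×ˢ range B, cnt2 I y z B p.1 p.2 = #I := by
  classical
  have hB0 : (0 : ℝ) < B := by exact_mod_cast (show 0 < B by omega)
  have hlt : ∀ x : ℝ, ⌊(B : ℝ) * Int.fract x⌋₊ < B := by
    intro x
    rw [Nat.floor_lt (by positivity)]
    have := Int.fract_lt_one x
    nlinarith
  have h1 := Finset.card_eq_sum_card_fiberwise (s := I) (t := range B ×ˢ range B)
    (f := fun i => (⌊(B : ℝ) * Int.fract (y i)⌋₊, ⌊(B : ℝ) * Int.fract (z i)⌋₊)) (fun i _ => by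
      simp only [coe_product, coe_range, Set.mem_prod, Set.mem_Iio]
      exact ⟨hlt _, hlt _⟩)
  rw [h1]
  refine Finset.sum_congr rfl fun p _ => ?_
  unfold cnt2
  congr 1
  ext i
  rw [mem_filter, mem_filter, Prod.ext_iff]
  refine and_congr_right fun _ => ?_
  exact and_congr (Nat.floor_eq_iff (by positivity)).symm (Nat.floor_eq_iff (by positivity)).symm

/-- **Quantitative Weyl criterion in two variables.** -/
theorem weyl2_box {B : ℕ} (hB : 1 ≤ B) {ε : ℝ} (hε : 0 < ε) :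
    ∃ (H : ℕ) (e : ℝ), 0 < e ∧ ∀ (k : ℕ) (I : Finset ℕ) (y z : ℕ → ℝ) (w w' : ℕ), #I ≤ k →
      w < B → w' < B → ε * k ≤ |(cnt2 I y z B w w' : ℝ) - #I / (B : ℝ) ^ 2| →
      ∃ h h' : ℤ, (h, h') ≠ (0, 0) ∧ |h| ≤ H ∧ |h'| ≤ H ∧
        ∃ d : Fin 4, e * k ≤ (Complex.I ^ (d : ℕ) * es2 I y z h h').re := by
  classical
  have hB0 : (0 : ℝ) < B := by exact_mod_cast (show 0 < B by omega)
  have hB1 : (1 : ℝ) ≤ (B : ℝ) ^ 2 := one_le_pow₀ (by exact_mod_cast hB)
  set s : ℝ := min ε 1 / 4 with hs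
  have hm : 0 < min ε 1 := lt_min hε one_pos
  have hs0 : 0 < s := by positivity
  have hs1 : s < 1 := by
    have := min_le_right ε 1
    rw [hs]; linarith
  have hsε : 2 * s < ε := by
    have := min_le_left ε 1
    rw [hs]; linarith
  obtain ⟨H, e, he, hH⟩ := cnt2_ge hB hs0 hs1
  refine ⟨max H 1, e / 2, by positivity, fun k I y z w w' hIk hw hw' hdev => ?_⟩
  rcases Nat.eq_zero_or_pos k with h0 | h0
  · subst h0
    have hI : I = ∅ := Finset.card_eq_zero.1 (by omega)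
    subst hI
    refine ⟨1, 0, by simp, ?_, by simp, 0, ?_⟩
    · rw [abs_one]; exact_mod_cast le_max_right H 1
    · simp [es2]
  have hk : (0 : ℝ) < k := by exact_mod_cast h0
  have hIk' : (#I : ℝ) ≤ k := by exact_mod_cast hIk
  have hex : ∃ h h' : ℤ, (h, h') ≠ (0, 0) ∧ |h| ≤ H ∧ |h'| ≤ H ∧ e * k < ‖es2 I y z h h'‖ := by
    by_contra hcon
    push Not at hcon
    have h1 := hH I k y z hIk' (fun h h' hne hh hh' => hcon h h' hne hh hh')
    have h2 := h1 w hw w' hw'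
    have hmem : (w, w') ∈ range B ×ˢ range B :=
      mem_product.2 ⟨mem_range.2 hw, mem_range.2 hw'⟩
    have h3 : (cnt2 I y z B w w' : ℝ) ≤ #I / (B : ℝ) ^ 2 + 2 * s * k := by
      have h4 : ∑ p ∈ range B ×ˢ range B, (cnt2 I y z B p.1 p.2 : ℝ) = #I := by
        exact_mod_cast sum_cnt2 I y z hB
      rw [← Finset.add_sum_erase _ _ hmem] at h4
      have h5 : ∑ p ∈ (range B ×ˢ range B).erase (w, w'),
            ((#I : ℝ) / (B : ℝ) ^ 2 - 2 * s * k / (B : ℝ) ^ 2) ≤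
          ∑ p ∈ (range B ×ˢ range B).erase (w, w'), (cnt2 I y z B p.1 p.2 : ℝ) := by
        refine Finset.sum_le_sum fun p hp => ?_
        have hp' := mem_product.1 (mem_of_mem_erase hp)
        exact h1 p.1 (mem_range.1 hp'.1) p.2 (mem_range.1 hp'.2)
      rw [Finset.sum_const, card_erase_of_mem hmem, card_product, card_range, nsmul_eq_mul] at h5
      have h6 : ((B * B - 1 : ℕ) : ℝ) = (B : ℝ) ^ 2 - 1 := by
        rw [Nat.cast_sub (Nat.mul_pos (by omega) (by omega))]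
        push_cast
        ring
      rw [h6] at h5
      have h7 : ((B : ℝ) ^ 2 - 1) * ((#I : ℝ) / (B : ℝ) ^ 2 - 2 * s * k / (B : ℝ) ^ 2) =
          #I - #I / (B : ℝ) ^ 2 - 2 * s * k + 2 * s * k / (B : ℝ) ^ 2 := by
        field_simp
        ring
      have h8 : 0 ≤ 2 * s * k / (B : ℝ) ^ 2 := by positivity
      simp only at h4
      linarith
    have h4 : |(cnt2 I y z B w w' : ℝ) - #I / (B : ℝ) ^ 2| ≤ 2 * s * k := by
      rw [abs_le]
      constructor
      · have h5 : 2 * s * k / (B : ℝ) ^ 2 ≤ 2 * s * k := div_le_self (by positivity) hB1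
        linarith
      · linarith
    have h5 : 2 * s * k < ε * k := mul_lt_mul_of_pos_right hsε hk
    linarith
  obtain ⟨h, h', h1, h2, h3, h4⟩ := hex
  obtain ⟨d, hd⟩ := exists_dir (es2 I y z h h')
  have hHm : (H : ℤ) ≤ ((max H 1 : ℕ) : ℤ) := by exact_mod_cast le_max_left H 1
  exact ⟨h, h', h1, h2.trans hHm, h3.trans hHm, d, by linarith⟩

open Classical in
/-- the interface form -/
theorem weyl2 (q : ℕ) (hq : 1 ≤ q) {ε : ℝ} (hε : 0 < ε) :
    ∃ (H : ℕ) (e : ℝ), 0 < e ∧ ∀ (k : ℕ) (I : Finset ℕ) (y z : ℕ → ℝ), #I ≤ k →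
      ε * k ≤ |((#{i ∈ I | (q : ℝ) * Int.fract (y i) < 1 ∧ (q : ℝ) * Int.fract (z i) < 1} : ℕ) :
        ℝ) - #I / (q : ℝ) ^ 2| →
      ∃ h h' : ℤ, (h, h') ≠ (0, 0) ∧ |h| ≤ H ∧ |h'| ≤ H ∧ ∃ d : ℕ, d < 8 ∧
        e * k ≤ (∑ i ∈ I, Complex.exp (2 * π * Complex.I * (h * y i + h' * z i)) *
          Complex.exp (-(2 * π * Complex.I * ((d : ℂ) / 8)))).re := by
  obtain ⟨H, e, he, hH⟩ := weyl2_box hq hε
  refine ⟨H, e, he, fun k I y z hIk hdev => ?_⟩
  have h1 : (#{i ∈ I | (q : ℝ) * Int.fract (y i) < 1 ∧ (q : ℝ) * Int.fract (z i) < 1} : ℕ) =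
      cnt2 I y z q 0 0 := by
    unfold cnt2
    congr 1
    ext i
    rw [mem_filter, mem_filter]
    refine and_congr_right fun _ => ?_
    have h2 : (0 : ℝ) ≤ (q : ℝ) * Int.fract (y i) := by positivity
    have h3 : (0 : ℝ) ≤ (q : ℝ) * Int.fract (z i) := by positivity
    simp [h2, h3]
  rw [h1] at hdev
  obtain ⟨h, h', hne, hh, hh', d, hd⟩ := hH k I y z 0 0 hIk (by omega) (by omega) hdev
  obtain ⟨d', hd', hI⟩ := dir8 d
  refine ⟨h, h', hne, hh, hh', d', hd', ?_⟩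
  rw [hI] at hd
  refine hd.trans (le_of_eq ?_)
  congr 1
  unfold es2
  rw [mul_comm, sum_mul]
  refine Finset.sum_congr rfl fun i _ => ?_
  congr 1
  unfold ee
  congr 1
  push_cast
  ring

end Pool.Agent.Helper67.NM
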